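import Mathlib

set_option autoImplicit false
open Finset

namespace CL19

/-- Clark–Lewis map -/
def T (p : ℤ × ℤ) : ℤ × ℤ := ((p.1 + p.2) / 2, p.2 - p.1)

/-- the reversor -/
def G (p : ℤ × ℤ) : ℤ × ℤ := (-p.1, p.2 - p.1)

lemma TGT (p : ℤ × ℤ) : T (G (T p)) = G p := by
  obtain ⟨x, y⟩ := p
  ext <;> simp only [T, G] <;> omega

lemma GG (p : ℤ × ℤ) : G (G p) = p := by
  obtain ⟨x, y⟩ := p
  ext <;> simp only [G] <;> omega

lemma T_inj : Function.Injective T := by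
  intro p q h
  have h1 := TGT p
  rw [h, TGT q] at h1
  have := congrArg G h1
  rw [GG, GG] at this
  exact this.symm

lemma iter_GT (k : ℕ) (p : ℤ × ℤ) : T^[k] (G (T^[k] p)) = G p := by
  induction k generalizing p with
  | zero => rfl
  | succ k ih =>
    rw [Function.iterate_succ_apply' T k p, Function.iterate_succ_apply T k, TGT, ih]

/-- two symmetric points on the same forward orbit: periodic -/
lemma sym_periodic (k : ℕ) (y y' : ℤ) (h : T^[k] (0, y) = (0, y')) : T^[k + k] (0, y) = (0, y) := by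
  have h0 : ∀ y : ℤ, G (0, y) = (0, y) := by intro y; ext <;> simp [G]
  have h1 := iter_GT k (0, y)
  rw [h, h0, h0] at h1
  rw [Function.iterate_add_apply, h, h1]

noncomputable def Phi (p : ℤ × ℤ) : ℂ := ⟨(p.1 : ℝ) - ((p.2 : ℝ) - 1/2) / 4, (Real.sqrt 7 / 4) * ((p.2 : ℝ) - 1/2)⟩

noncomputable def lam : ℂ := ⟨3/4, -(Real.sqrt 7 / 4)⟩

noncomputable def eta (p : ℤ × ℤ) : ℝ := if (p.1 + p.2) % 2 = 0 then -1 else 1

lemma eta_sq (p : ℤ × ℤ) : eta p ^ 2 = 1 := by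
  unfold eta; split_ifs <;> norm_num

lemma s7 : Real.sqrt 7 * Real.sqrt 7 = 7 := Real.mul_self_sqrt (by norm_num)

lemma Phi_T (p : ℤ × ℤ) : Phi (T p) = lam * Phi p - ((eta p / 4 : ℝ) : ℂ) := by
  obtain ⟨x, y⟩ := p
  have h7 := s7
  rcases Int.emod_two_eq_zero_or_one (x + y) with h | h
  · obtain ⟨k, hk⟩ : ∃ k, x + y = 2 * k := ⟨(x + y) / 2, by omega⟩
    have hk2 : (x + y) / 2 = k := by omega
    have hkR : (x:ℝ) + y = 2 * k := by exact_mod_cast hk
    have he : eta (x, y) = -1 := by simp [eta, h]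
    apply Complex.ext
    · simp only [Phi, T, lam, hk2, he, Complex.sub_re, Complex.mul_re, Complex.ofReal_re]
      push_cast
      linear_combination (-1/2) * hkR - ((y:ℝ) - 1/2) / 16 * h7
    · simp only [Phi, T, lam, hk2, he, Complex.sub_im, Complex.mul_im, Complex.ofReal_im]
      push_cast
      ring
  · obtain ⟨k, hk⟩ : ∃ k, x + y = 2 * k + 1 := ⟨(x + y) / 2, by omega⟩
    have hk2 : (x + y) / 2 = k := by omega
    have hkR : (x:ℝ) + y = 2 * k + 1 := by exact_mod_cast hk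
    have he : eta (x, y) = 1 := by simp [eta, h]
    apply Complex.ext
    · simp only [Phi, T, lam, hk2, he, Complex.sub_re, Complex.mul_re, Complex.ofReal_re]
      push_cast
      linear_combination (-1/2) * hkR - ((y:ℝ) - 1/2) / 16 * h7
    · simp only [Phi, T, lam, hk2, he, Complex.sub_im, Complex.mul_im, Complex.ofReal_im]
      push_cast
      ring

lemma lam_normSq : Complex.normSq lam = 1 := by
  have h7 := s7
  simp only [Complex.normSq_apply, lam]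
  nlinarith [h7]

lemma lam_norm : ‖lam‖ = 1 := by
  have h : ‖lam‖ ^ 2 = 1 := by rw [← Complex.normSq_eq_norm_sq, lam_normSq]
  have h0 := norm_nonneg lam
  nlinarith

noncomputable def s (N : ℕ) (p : ℤ × ℤ) : ℂ := Phi (T^[N] p) - lam ^ N * Phi p

lemma s_zero (p : ℤ × ℤ) : s 0 p = 0 := by simp [s]

lemma s_succ (N : ℕ) (p : ℤ × ℤ) : s (N + 1) p = lam * s N p - ((eta (T^[N] p) / 4 : ℝ) : ℂ) := by
  unfold s
  rw [Function.iterate_succ_apply', Phi_T, pow_succ]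
  ring

def A (u : ℤ × ℤ) : ℤ × ℤ := (u.1 + u.2, 2 * (u.2 - u.1))

lemma A_smul (c : ℤ) (u : ℤ × ℤ) : A (c • u) = c • A u := by
  ext <;> simp [A] <;> ring

lemma T_shift (p u : ℤ × ℤ) : T (p + (2:ℤ) • u) = T p + A u := by
  obtain ⟨x, y⟩ := p
  obtain ⟨a, b⟩ := u
  ext <;> simp only [T, A, Prod.smul_mk, Prod.mk_add_mk, smul_eq_mul] <;> omega

lemma T_iter_shift (j m : ℕ) (p u : ℤ × ℤ) :
    T^[j] (p + ((2:ℤ) ^ (j + m)) • u) = T^[j] p + ((2:ℤ) ^ m) • A^[j] u := by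
  induction j generalizing p u with
  | zero => simp
  | succ j ih =>
    rw [Function.iterate_succ_apply, Function.iterate_succ_apply, Function.iterate_succ_apply]
    have h1 : ((2:ℤ) ^ (j + 1 + m)) • u = (2:ℤ) • (((2:ℤ) ^ (j + m)) • u) := by
      rw [smul_smul]; congr 1; ring
    rw [h1, T_shift, A_smul, ih]

lemma A_parity (u : ℤ × ℤ) (j : ℕ) : ((A^[j] u).1 + (A^[j] u).2) % 2 = (u.1 + u.2) % 2 := by
  induction j with
  | zero => rfl
  | succ j ih =>
    rw [Function.iterate_succ_apply', ← ih]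
    simp only [A]
    omega

lemma eta_even (p v : ℤ × ℤ) (m : ℕ) : eta (p + ((2:ℤ) ^ (m + 1)) • v) = eta p := by
  obtain ⟨x, y⟩ := p
  obtain ⟨a, b⟩ := v
  unfold eta
  have : (((x, y) + ((2:ℤ) ^ (m + 1)) • (a, b) : ℤ × ℤ).1 + ((x, y) + ((2:ℤ) ^ (m + 1)) • (a, b) : ℤ × ℤ).2) % 2
      = (x + y) % 2 := by
    simp only [Prod.smul_mk, Prod.mk_add_mk, smul_eq_mul, pow_succ]
    have : x + 2 ^ m * 2 * a + (y + 2 ^ m * 2 * b) = x + y + 2 * (2 ^ m * a + 2 ^ m * b) := by ring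
    rw [this]
    omega
  rw [this]

lemma eta_odd (p v : ℤ × ℤ) (h : (v.1 + v.2) % 2 = 1) : eta (p + v) = - eta p := by
  obtain ⟨x, y⟩ := p
  obtain ⟨a, b⟩ := v
  simp only at h
  unfold eta
  simp only [Prod.mk_add_mk]
  rcases Int.emod_two_eq_zero_or_one (x + y) with h1 | h1
  · have : (x + a + (y + b)) % 2 = 1 := by omega
    simp [this, h1]
  · have : (x + a + (y + b)) % 2 = 0 := by omega
    simp [this, h1]

lemma pt_shift (N : ℕ) (x y : ℤ) : ((x + 2 ^ N, y) : ℤ × ℤ) = (x, y) + ((2:ℤ) ^ N) • ((1, 0) : ℤ × ℤ) := by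
  ext <;> simp

lemma eta_same (j N : ℕ) (h : j < N) (x y : ℤ) : eta (T^[j] (x + 2 ^ N, y)) = eta (T^[j] (x, y)) := by
  obtain ⟨m, hm⟩ : ∃ m, N = j + (m + 1) := ⟨N - j - 1, by omega⟩
  rw [pt_shift, hm, T_iter_shift, eta_even]

lemma eta_flip (N : ℕ) (x y : ℤ) : eta (T^[N] (x + 2 ^ N, y)) = - eta (T^[N] (x, y)) := by
  rw [pt_shift]
  have := T_iter_shift N 0 (x, y) (1, 0)
  rw [add_zero, pow_zero, one_smul] at this
  rw [this]
  apply eta_odd
  rw [A_parity]; norm_num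

lemma s_same (N : ℕ) (x y : ℤ) : s N (x + 2 ^ N, y) = s N (x, y) := by
  have : ∀ j, j ≤ N → s j (x + 2 ^ N, y) = s j (x, y) := by
    intro j
    induction j with
    | zero => intro _; rw [s_zero, s_zero]
    | succ j ih =>
      intro h
      rw [s_succ, s_succ, ih (by omega), eta_same j N (by omega)]
  exact this N le_rfl

lemma s_succ_sq (N : ℕ) (p : ℤ × ℤ) : ‖s (N + 1) p‖ ^ 2 =
    ‖s N p‖ ^ 2 - eta (T^[N] p) / 2 * (lam * s N p).re + 1 / 16 := by
  rw [s_succ, ← Complex.normSq_eq_norm_sq, ← Complex.normSq_eq_norm_sq, Complex.normSq_sub, Complex.normSq_mul,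
    lam_normSq, Complex.normSq_ofReal]
  have h1 := eta_sq (T^[N] p)
  simp only [Complex.conj_ofReal, Complex.mul_re, Complex.ofReal_re, Complex.ofReal_im]
  linear_combination (1/16) * h1

lemma block (N : ℕ) : ∀ a y : ℤ, ∑ i ∈ range (2 ^ N), ‖s N (a + i, y)‖ ^ 2 = 2 ^ N * N / 16 := by
  induction N with
  | zero => intro a y; simp [s_zero]
  | succ N ih =>
    intro a y
    rw [show 2 ^ (N + 1) = 2 ^ N + 2 ^ N by ring, Finset.sum_range_add, ← Finset.sum_add_distrib]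
    have h : ∀ i ∈ range (2 ^ N), ‖s (N + 1) (a + (i:ℤ), y)‖ ^ 2 + ‖s (N + 1) (a + ((2 ^ N + i : ℕ) : ℤ), y)‖ ^ 2
        = 2 * ‖s N (a + (i:ℤ), y)‖ ^ 2 + 1 / 8 := by
      intro i _
      have e : (a + ((2 ^ N + i : ℕ) : ℤ)) = (a + (i:ℤ)) + 2 ^ N := by push_cast; ring
      rw [e, s_succ_sq, s_succ_sq, s_same, eta_flip]
      ring
    rw [Finset.sum_congr rfl h, Finset.sum_add_distrib, ← Finset.mul_sum, ih a y]
    simp
    ring

lemma blocks (N : ℕ) (K : ℕ) : ∀ a y : ℤ, ∑ i ∈ range (K * 2 ^ N), ‖s N (a + i, y)‖ ^ 2 = K * (2 ^ N * N / 16) := by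
  induction K with
  | zero => intro a y; simp
  | succ K ih =>
    intro a y
    rw [show (K + 1) * 2 ^ N = K * 2 ^ N + 2 ^ N by ring, Finset.sum_range_add, ih]
    have h : ∀ i ∈ range (2 ^ N), ‖s N (a + ((K * 2 ^ N + i : ℕ) : ℤ), y)‖ ^ 2
        = ‖s N ((a + K * 2 ^ N) + (i:ℤ), y)‖ ^ 2 := by
      intro i _
      congr 3
      push_cast; ring_nf
    rw [Finset.sum_congr rfl h, block]
    push_cast; ring

lemma s_norm_le (N : ℕ) (p : ℤ × ℤ) : ‖s N p‖ ≤ N / 4 := by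
  induction N with
  | zero => simp [s_zero]
  | succ N ih =>
    rw [s_succ]
    refine le_trans (norm_sub_le _ _) ?_
    rw [norm_mul, lam_norm, one_mul, Complex.norm_real, Real.norm_eq_abs, abs_div]
    have : |eta (T^[N] p)| = 1 := by unfold eta; split_ifs <;> norm_num
    rw [this]
    push_cast
    norm_num
    linarith

lemma Phi_iter_le (N : ℕ) (p : ℤ × ℤ) : ‖Phi (T^[N] p)‖ ≤ ‖Phi p‖ + ‖s N p‖ := by
  have : Phi (T^[N] p) = lam ^ N * Phi p + s N p := by unfold s; ring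
  rw [this]
  refine le_trans (norm_add_le _ _) ?_
  rw [norm_mul, norm_pow, lam_norm, one_pow, one_mul]

end CL19
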