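import Pool.Agent.Helper19.CL.Base

set_option autoImplicit false
open Finset

namespace CL19

lemma sqrt7_ge : (2.6:ℝ) ≤ Real.sqrt 7 := by
  apply Real.le_sqrt_of_sq_le; norm_num

lemma box_of_lt {p : ℤ × ℤ} {R : ℕ} (hR : 1 ≤ R) (h : ‖Phi p‖ < 2 * R) :
    -(4 * (R:ℤ)) ≤ p.1 ∧ p.1 < 4 * (R:ℤ) ∧ -(4 * (R:ℤ)) ≤ p.2 ∧ p.2 ≤ 4 * (R:ℤ) := by
  obtain ⟨x, y⟩ := p
  have hRr : (1:ℝ) ≤ R := by exact_mod_cast hR
  have h1 : |(x:ℝ) - ((y:ℝ) - 1/2) / 4| < 2 * R := lt_of_le_of_lt (Complex.abs_re_le_norm (Phi (x, y))) h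
  have h2 : |(Real.sqrt 7 / 4) * ((y:ℝ) - 1/2)| < 2 * R := lt_of_le_of_lt (Complex.abs_im_le_norm (Phi (x, y))) h
  have h7 := sqrt7_ge
  rw [abs_mul, abs_of_pos (by positivity : 0 < Real.sqrt 7 / 4)] at h2
  have h3 : |(y:ℝ) - 1/2| < 3.1 * R := by
    have h0 := abs_nonneg ((y:ℝ) - 1/2)
    have : (2.6/4) * |(y:ℝ) - 1/2| ≤ Real.sqrt 7 / 4 * |(y:ℝ) - 1/2| := by
      apply mul_le_mul_of_nonneg_right _ h0
      linarith
    nlinarith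
  obtain ⟨a1, a2⟩ := abs_lt.mp h1
  obtain ⟨b1, b2⟩ := abs_lt.mp h3
  simp only
  refine ⟨?_, ?_, ?_, ?_⟩
  · have : (-(4 * (R:ℤ)) : ℝ) ≤ (x:ℝ) := by push_cast; linarith
    exact_mod_cast this
  · have : (x:ℝ) < 4 * (R:ℝ) := by linarith
    exact_mod_cast this
  · have : (-(4 * (R:ℤ)) : ℝ) ≤ (y:ℝ) := by push_cast; linarith
    exact_mod_cast this
  · have : (y:ℝ) ≤ 4 * (R:ℝ) := by linarith
    exact_mod_cast this

lemma sum_Ico_int (f : ℤ → ℝ) (a : ℤ) (n : ℕ) : ∑ x ∈ Ico a (a + n), f x = ∑ i ∈ range n, f (a + i) := by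
  have : Ico a (a + n) = (range n).image (fun i : ℕ => a + (i:ℤ)) := by
    ext x
    simp only [Finset.mem_Ico, Finset.mem_image, Finset.mem_range]
    constructor
    · intro h
      exact ⟨(x - a).toNat, by omega, by omega⟩
    · rintro ⟨i, hi, rfl⟩
      constructor <;> omega
  rw [this, Finset.sum_image]
  intro i _ j _ h
  simpa using h

/-- the covering box -/
noncomputable def Dfin (N R : ℕ) : Finset (ℤ × ℤ) :=
  (Ico (-(4 * (R:ℤ))) (-(4 * (R:ℤ)) + ((8 * R / 2 ^ N + 1) * 2 ^ N : ℕ))) ×ˢ (Icc (-(4 * (R:ℤ))) (4 * (R:ℤ)))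

lemma Kbound (N R : ℕ) (hR : 2 ^ N ≤ R) : 8 * R < (8 * R / 2 ^ N + 1) * 2 ^ N ∧ (8 * R / 2 ^ N + 1) * 2 ^ N ≤ 9 * R := by
  have hp : 0 < 2 ^ N := by positivity
  have h1 := Nat.div_add_mod (8 * R) (2 ^ N)
  have h2 := Nat.mod_lt (8 * R) hp
  have h3 : (8 * R / 2 ^ N + 1) * 2 ^ N = 2 ^ N * (8 * R / 2 ^ N) + 2 ^ N := by ring
  constructor <;> omega

lemma mem_Dfin {N R : ℕ} (hR : 2 ^ N ≤ R) {p : ℤ × ℤ} (h : ‖Phi p‖ < 2 * R) : p ∈ Dfin N R := by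
  have hR1 : 1 ≤ R := le_trans (Nat.one_le_two_pow) hR
  obtain ⟨h1, h2, h3, h4⟩ := box_of_lt hR1 h
  obtain ⟨k1, _⟩ := Kbound N R hR
  unfold Dfin
  rw [Finset.mem_product, Finset.mem_Ico, Finset.mem_Icc]
  refine ⟨⟨h1, ?_⟩, h3, h4⟩
  have : (8 * (R:ℤ)) < (((8 * R / 2 ^ N + 1) * 2 ^ N : ℕ) : ℤ) := by exact_mod_cast k1
  omega

lemma Dfin_sum (N R : ℕ) (hR : 2 ^ N ≤ R) : ∑ p ∈ Dfin N R, ‖s N p‖ ≤ 81 * (R:ℝ) ^ 2 * Real.sqrt N / 4 := by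
  have hR1 : 1 ≤ R := le_trans (Nat.one_le_two_pow) hR
  obtain ⟨_, k2⟩ := Kbound N R hR
  set K := 8 * R / 2 ^ N + 1 with hK
  have hsq : ∑ p ∈ Dfin N R, ‖s N p‖ ^ 2 = (8 * (R:ℝ) + 1) * ((K:ℝ) * 2 ^ N) * (N / 16) := by
    unfold Dfin
    rw [Finset.sum_product_right]
    have h1 : ∀ y ∈ Icc (-(4 * (R:ℤ))) (4 * (R:ℤ)),
        ∑ x ∈ Ico (-(4 * (R:ℤ))) (-(4 * (R:ℤ)) + ((8 * R / 2 ^ N + 1) * 2 ^ N : ℕ)), ‖s N (x, y)‖ ^ 2
          = K * (2 ^ N * N / 16) := by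
      intro y _
      rw [sum_Ico_int (fun x => ‖s N (x, y)‖ ^ 2)]
      exact blocks N K _ y
    rw [Finset.sum_congr rfl h1, Finset.sum_const, nsmul_eq_mul, Int.card_Icc]
    have : ((4 * (R:ℤ) + 1 - -(4 * (R:ℤ))).toNat : ℝ) = 8 * (R:ℝ) + 1 := by
      have e : (4 * (R:ℤ) + 1 - -(4 * (R:ℤ))).toNat = 8 * R + 1 := by omega
      rw [e]; push_cast; ring
    rw [this]; ring
  have hcard : ((Dfin N R).card : ℝ) = ((K:ℝ) * 2 ^ N) * (8 * (R:ℝ) + 1) := by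
    unfold Dfin
    rw [Finset.card_product, Int.card_Icc, Int.card_Ico]
    have e1 : (4 * (R:ℤ) + 1 - -(4 * (R:ℤ))).toNat = 8 * R + 1 := by omega
    have e2 : (-(4 * (R:ℤ)) + (((8 * R / 2 ^ N + 1) * 2 ^ N : ℕ) : ℤ) - -(4 * (R:ℤ))).toNat = (8 * R / 2 ^ N + 1) * 2 ^ N := by
      omega
    have hKR : (K:ℝ) = ((8 * R / 2 ^ N : ℕ) : ℝ) + 1 := by rw [hK]; push_cast; rfl
    rw [e1, e2, hKR]; push_cast
    ring
  have hcs := sq_sum_le_card_mul_sum_sq (s := Dfin N R) (f := fun p => ‖s N p‖)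
  rw [hsq, hcard] at hcs
  have hK9 : (K:ℝ) * 2 ^ N ≤ 9 * R := by exact_mod_cast k2
  have hR9 : (8 * (R:ℝ) + 1) ≤ 9 * R := by
    have : (1:ℝ) ≤ R := by exact_mod_cast hR1
    linarith
  have hK0 : 0 ≤ (K:ℝ) * 2 ^ N := by positivity
  have hR0 : 0 ≤ (8 * (R:ℝ) + 1) := by positivity
  have hprod : ((K:ℝ) * 2 ^ N) * (8 * (R:ℝ) + 1) ≤ 81 * (R:ℝ) ^ 2 := by
    calc _ ≤ (9 * (R:ℝ)) * (9 * R) := mul_le_mul hK9 hR9 hR0 (by positivity)
      _ = _ := by ring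
  have hprod0 : 0 ≤ ((K:ℝ) * 2 ^ N) * (8 * (R:ℝ) + 1) := by positivity
  have hN0 : (0:ℝ) ≤ N := Nat.cast_nonneg N
  have hfin : (∑ p ∈ Dfin N R, ‖s N p‖) ^ 2 ≤ (81 * (R:ℝ) ^ 2 * Real.sqrt N / 4) ^ 2 := by
    have h5 : (81 * (R:ℝ) ^ 2 * Real.sqrt N / 4) ^ 2 = (81 * (R:ℝ) ^ 2) ^ 2 * (N / 16) := by
      have : Real.sqrt N ^ 2 = N := Real.sq_sqrt hN0
      calc (81 * (R:ℝ) ^ 2 * Real.sqrt N / 4) ^ 2 = (81 * (R:ℝ) ^ 2) ^ 2 * (Real.sqrt N ^ 2 / 16) := by ring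
        _ = _ := by rw [this]
    rw [h5]
    refine le_trans hcs ?_
    calc ((K:ℝ) * 2 ^ N) * (8 * (R:ℝ) + 1) * ((8 * (R:ℝ) + 1) * ((K:ℝ) * 2 ^ N) * (N / 16))
        = (((K:ℝ) * 2 ^ N) * (8 * (R:ℝ) + 1)) ^ 2 * (N / 16) := by ring
      _ ≤ (81 * (R:ℝ) ^ 2) ^ 2 * (N / 16) :=
        mul_le_mul_of_nonneg_right (pow_le_pow_left₀ hprod0 hprod 2) (by positivity)
  have h0 : 0 ≤ 81 * (R:ℝ) ^ 2 * Real.sqrt N / 4 := by positivity
  exact le_trans (le_abs_self _) (abs_le_of_sq_le_sq hfin h0)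

lemma orbit_inj {z : ℤ × ℤ} (h : ∀ n, 0 < n → T^[n] z ≠ z) : Function.Injective (fun n => T^[n] z) := by
  have key : ∀ i j, i < j → T^[i] z ≠ T^[j] z := by
    intro i j hij heq
    have e : j = i + (j - i) := by omega
    rw [e, Function.iterate_add_apply] at heq
    exact h (j - i) (by omega) (T_inj.iterate i heq).symm
  intro i j hij
  rcases lt_trichotomy i j with h1 | h1 | h1
  · exact absurd hij (key i j h1)
  · exact h1
  · exact absurd hij.symm (key j i h1)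

lemma eventually_out {z : ℤ × ℤ} (h : ∀ n, 0 < n → T^[n] z ≠ z) (N R : ℕ) (hR : 2 ^ N ≤ R) :
    ∃ L, ∀ n, L ≤ n → 2 * (R:ℝ) ≤ ‖Phi (T^[n] z)‖ := by
  have hfin : {n : ℕ | T^[n] z ∈ Dfin N R}.Finite :=
    Set.Finite.preimage (orbit_inj h).injOn (Finset.finite_toSet (Dfin N R))
  obtain ⟨L, hL⟩ := hfin.bddAbove
  refine ⟨L + 1, fun n hn => ?_⟩
  by_contra hcon
  push Not at hcon
  have := hL (mem_Dfin hR hcon)
  omega

theorem count (N R : ℕ) (hR : 2 ^ N ≤ R) (Z : Finset (ℤ × ℤ))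
    (hZ : ∀ z ∈ Z, ‖Phi z‖ ≤ R) (hNP : ∀ z ∈ Z, ∀ n, 0 < n → T^[n] z ≠ z)
    (hdis : ∀ z ∈ Z, ∀ z' ∈ Z, ∀ i j, T^[i] z = T^[j] z' → z = z') :
    (Z.card : ℝ) * (N * (R - N / 4)) ≤ 81 * (R:ℝ) ^ 2 * Real.sqrt N / 4 := by
  classical
  choose! L hL using fun z hz => eventually_out (hNP z hz) N R hR
  set L0 := Z.sup L with hL0
  let f : ℤ × ℤ → ℕ → ℝ := fun z n => min ‖Phi (T^[n] z)‖ (2 * R)
  let g : ℤ × ℤ → ℝ := fun p => if ‖Phi p‖ < 2 * R then ‖s N p‖ else 0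
  have hg0 : ∀ p, 0 ≤ g p := by
    intro p; simp only [g]; split_ifs
    · exact norm_nonneg _
    · exact le_refl _
  have hterm : ∀ z n, f z (n + N) - f z n ≤ g (T^[n] z) := by
    intro z n
    simp only [f, g]
    split_ifs with hlt
    · rw [min_eq_left hlt.le]
      have h1 : ‖Phi (T^[n + N] z)‖ ≤ ‖Phi (T^[n] z)‖ + ‖s N (T^[n] z)‖ := by
        rw [add_comm n N, Function.iterate_add_apply]
        exact Phi_iter_le N _
      have h2 := min_le_left ‖Phi (T^[n + N] z)‖ (2 * (R:ℝ))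
      linarith
    · push Not at hlt
      rw [min_eq_right hlt]
      have h2 := min_le_right ‖Phi (T^[n + N] z)‖ (2 * (R:ℝ))
      linarith
  have hz : ∀ z ∈ Z, (N:ℝ) * (R - N / 4) ≤ ∑ n ∈ range L0, g (T^[n] z) := by
    intro z hz
    have t1 := Finset.sum_range_add (f z) N L0
    have t2 := Finset.sum_range_add (f z) L0 N
    rw [add_comm N L0, t2] at t1
    have t3 : ∑ n ∈ range L0, (f z (n + N) - f z n) = ∑ n ∈ range N, (f z (L0 + n) - f z n) := by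
      rw [Finset.sum_sub_distrib, Finset.sum_sub_distrib]
      have : ∑ n ∈ range L0, f z (n + N) = ∑ n ∈ range L0, f z (N + n) :=
        Finset.sum_congr rfl (fun n _ => by rw [add_comm])
      rw [this]
      linarith
    have t4 : ∑ n ∈ range N, ((R:ℝ) - N / 4) ≤ ∑ n ∈ range N, (f z (L0 + n) - f z n) := by
      apply Finset.sum_le_sum
      intro n hn
      have hn' := Finset.mem_range.mp hn
      have e1 : f z (L0 + n) = 2 * R := by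
        simp only [f]
        apply min_eq_right
        apply hL z hz
        have := Finset.le_sup (f := L) hz
        omega
      have e2 : f z n ≤ R + N / 4 := by
        simp only [f]
        refine le_trans (min_le_left _ _) ?_
        refine le_trans (Phi_iter_le n z) ?_
        have h1 := hZ z hz
        have h2 := s_norm_le n z
        have h3 : (n:ℝ) ≤ N := by exact_mod_cast hn'.le
        linarith
      rw [e1]; linarith
    rw [Finset.sum_const, Finset.card_range, nsmul_eq_mul] at t4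
    calc _ ≤ ∑ n ∈ range N, (f z (L0 + n) - f z n) := t4
      _ = ∑ n ∈ range L0, (f z (n + N) - f z n) := t3.symm
      _ ≤ _ := Finset.sum_le_sum (fun n _ => hterm z n)
  have h1 : (Z.card : ℝ) * (N * (R - N / 4)) ≤ ∑ z ∈ Z, ∑ n ∈ range L0, g (T^[n] z) := by
    calc (Z.card : ℝ) * (N * (R - N / 4)) = ∑ z ∈ Z, (N:ℝ) * (R - N / 4) := by
          rw [Finset.sum_const, nsmul_eq_mul]
      _ ≤ _ := Finset.sum_le_sum hz
  have h2 : ∑ z ∈ Z, ∑ n ∈ range L0, g (T^[n] z) = ∑ q ∈ Z ×ˢ range L0, g (T^[q.2] q.1) := by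
    rw [Finset.sum_product]
  have hinj : Set.InjOn (fun q : (ℤ × ℤ) × ℕ => T^[q.2] q.1) (Z ×ˢ range L0 : Finset ((ℤ × ℤ) × ℕ)) := by
    intro q hq q' hq' heq
    rw [Finset.mem_coe, Finset.mem_product] at hq hq'
    have e1 := hdis q.1 hq.1 q'.1 hq'.1 _ _ heq
    have e2 : q.2 = q'.2 := by
      apply orbit_inj (hNP q.1 hq.1)
      simp only at heq ⊢
      rw [heq, e1]
    exact Prod.ext e1 e2
  have h3 : ∑ q ∈ Z ×ˢ range L0, g (T^[q.2] q.1) =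
      ∑ p ∈ (Z ×ˢ range L0).image (fun q : (ℤ × ℤ) × ℕ => T^[q.2] q.1), g p :=
    (Finset.sum_image hinj).symm
  set W := (Z ×ˢ range L0).image (fun q : (ℤ × ℤ) × ℕ => T^[q.2] q.1) with hW
  have h4 : ∑ p ∈ W, g p ≤ ∑ p ∈ W ∪ Dfin N R, g p :=
    Finset.sum_le_sum_of_subset_of_nonneg Finset.subset_union_left (fun p _ _ => hg0 p)
  have h5 : ∑ p ∈ W ∪ Dfin N R, g p = ∑ p ∈ Dfin N R, g p := by
    symm
    apply Finset.sum_subset Finset.subset_union_right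
    intro p _ hp
    simp only [g]
    rw [if_neg]
    intro hlt
    exact hp (mem_Dfin hR hlt)
  have h6 : ∑ p ∈ Dfin N R, g p ≤ ∑ p ∈ Dfin N R, ‖s N p‖ := by
    apply Finset.sum_le_sum
    intro p _
    simp only [g]
    split_ifs
    · exact le_refl _
    · exact norm_nonneg _
  rw [h2, h3] at h1
  exact le_trans h1 (le_trans h4 (h5 ▸ le_trans h6 (Dfin_sum N R hR)))

/-- main counting bound -/
theorem count' (N R : ℕ) (hN : 1 ≤ N) (hR : 2 ^ N ≤ R) (Z : Finset (ℤ × ℤ))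
    (hZ : ∀ z ∈ Z, ‖Phi z‖ ≤ R) (hNP : ∀ z ∈ Z, ∀ n, 0 < n → T^[n] z ≠ z)
    (hdis : ∀ z ∈ Z, ∀ z' ∈ Z, ∀ i j, T^[i] z = T^[j] z' → z = z') :
    (Z.card : ℝ) ≤ 27 * R / Real.sqrt N := by
  have h := count N R hR Z hZ hNP hdis
  have hNR : (N:ℝ) ≤ R := by
    have : N ≤ R := le_trans (Nat.lt_two_pow_self).le hR
    exact_mod_cast this
  have hN1 : (1:ℝ) ≤ N := by exact_mod_cast hN
  have hR1 : (1:ℝ) ≤ R := le_trans hN1 hNR
  have hs0 : 0 < Real.sqrt N := Real.sqrt_pos.mpr (by linarith)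
  have hss : Real.sqrt N * Real.sqrt N = N := Real.mul_self_sqrt (by linarith)
  rw [le_div_iff₀ hs0]
  have hc0 : (0:ℝ) ≤ Z.card := Nat.cast_nonneg _
  -- card * N * (3/4 R) ≤ 81 R^2 sqrt N /4
  have h1 : (Z.card : ℝ) * (N * ((3/4) * R)) ≤ 81 * (R:ℝ) ^ 2 * Real.sqrt N / 4 := by
    refine le_trans ?_ h
    apply mul_le_mul_of_nonneg_left _ hc0
    apply mul_le_mul_of_nonneg_left _ (by linarith)
    linarith
  have h2 : ((Z.card : ℝ) * Real.sqrt N) * ((3/4) * R * Real.sqrt N) ≤ (27 * R) * ((3/4) * R * Real.sqrt N) := by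
    calc ((Z.card : ℝ) * Real.sqrt N) * ((3/4) * R * Real.sqrt N) = (Z.card : ℝ) * ((Real.sqrt N * Real.sqrt N) * ((3/4) * R)) := by
          ring
      _ = (Z.card : ℝ) * (N * ((3/4) * R)) := by rw [hss]
      _ ≤ 81 * (R:ℝ) ^ 2 * Real.sqrt N / 4 := h1
      _ = (27 * R) * ((3/4) * R * Real.sqrt N) := by ring
  exact le_of_mul_le_mul_right h2 (by positivity)

end CL19
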